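import Pool.Agent.N600.L3.Stm

/-!
# Project L3, COL: Gaussian weights for the digits `0`, `1`, `-1`
-/

set_option autoImplicit false
set_option linter.unusedSectionVars false

namespace Pool.Agent.N216.L3

open Pool.Agent.N600.L3
open Pool.Agent.W963.GE (NN be M2 al dd M2_pos M2_ge al_le NN_add NN_one NN_step cosh_ineq)

variable {ι : Type*} [Fintype ι] [DecidableEq ι]

/-- one step for a difference of two bits, at a general vector -/
lemma stepY (x : ι → ℂ) (hinj : Function.Injective x) (hx : ∀ i, 1 < ‖x i‖) (y : ι → ℂ) :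
    ∑ a : Bool × Bool, Real.exp (-(NN x ((fun j => x j * y j) + fun _ => ((dd a : ℝ) : ℂ)) / M2 x)) ≤
      2 * (1 + al x) * Real.exp (-(NN x y / M2 x)) := by
  have hM := M2_pos x hx
  set z : ι → ℂ := fun j => x j * y j with hz
  set b : ℝ := (be x z).re with hb
  have hN := NN_step x hinj hx y
  rw [← hz] at hN
  have hterm : ∀ a : Bool × Bool, NN x (z + fun _ => ((dd a : ℝ) : ℂ)) =
      NN x z + 2 * dd a * b + dd a ^ 2 * (M2 x - 1) := by
    intro a
    rw [NN_add, NN_one x hinj hx]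
  simp_rw [hterm]
  rw [Fintype.sum_prod_type]
  simp only [Fintype.sum_bool, dd]
  simp only [if_true, Bool.false_eq_true, if_false]
  set E := Real.exp (-(NN x z / M2 x)) with hE
  set u : ℝ := 2 * b / M2 x with hu
  have t1 : Real.exp (-((NN x z + 2 * (1 - 1) * b + (1 - 1) ^ 2 * (M2 x - 1)) / M2 x)) = E := by
    rw [hE]; congr 2; ring
  have t2 : Real.exp (-((NN x z + 2 * (1 - 0) * b + (1 - 0) ^ 2 * (M2 x - 1)) / M2 x)) =
      E * al x * Real.exp (-u) := by
    rw [hE, al, ← Real.exp_add, ← Real.exp_add]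
    congr 1
    rw [hu]; field_simp; ring
  have t3 : Real.exp (-((NN x z + 2 * (0 - 1) * b + (0 - 1) ^ 2 * (M2 x - 1)) / M2 x)) =
      E * al x * Real.exp u := by
    rw [hE, al, ← Real.exp_add, ← Real.exp_add]
    congr 1
    rw [hu]; field_simp; ring
  have t4 : Real.exp (-((NN x z + 2 * (0 - 0) * b + (0 - 0) ^ 2 * (M2 x - 1)) / M2 x)) = E := by
    rw [hE]; congr 2; ring
  rw [t1, t2, t3, t4]
  have hal0 : 0 ≤ al x := (Real.exp_pos _).le
  have hc := cosh_ineq (al x) u hal0 (al_le x hx)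
  have hE0 : 0 < E := Real.exp_pos _
  have hcosh : Real.exp (-u) + Real.exp u = 2 * Real.cosh u := by
    rw [Real.cosh_eq]; ring
  have e1 : E + E * al x * Real.exp (-u) + (E * al x * Real.exp u + E) =
      2 * E * (1 + al x * Real.cosh u) := by
    have : E + E * al x * Real.exp (-u) + (E * al x * Real.exp u + E) =
      2 * E + E * al x * (Real.exp (-u) + Real.exp u) := by ring
    rw [this, hcosh]; ring
  rw [e1]
  have h5 : 2 * E * (1 + al x * Real.cosh u) ≤ 2 * E * ((1 + al x) * Real.exp (u ^ 2 / 4)) :=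
    mul_le_mul_of_nonneg_left hc (by positivity)
  refine h5.trans ?_
  have h6 : E * Real.exp (u ^ 2 / 4) ≤ Real.exp (-(NN x y / M2 x)) := by
    rw [hE, ← Real.exp_add]
    apply Real.exp_le_exp.2
    rw [hN]
    have h7 : b ^ 2 ≤ ‖be x z‖ ^ 2 := by
      have h8 : |b| ≤ ‖be x z‖ := Complex.abs_re_le_norm _
      have h9 := abs_nonneg b
      rw [← sq_abs b]
      gcongr
    have h10 : u ^ 2 / 4 = b ^ 2 / M2 x / M2 x := by rw [hu]; field_simp; ring
    rw [h10, add_div]
    have h11 : b ^ 2 / M2 x / M2 x ≤ ‖be x z‖ ^ 2 / M2 x / M2 x := by gcongr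
    linarith
  calc 2 * E * ((1 + al x) * Real.exp (u ^ 2 / 4)) = 2 * (1 + al x) * (E * Real.exp (u ^ 2 / 4)) := by
        ring
    _ ≤ _ := mul_le_mul_of_nonneg_left h6 (by positivity)

/-- the vector of the values of a digit sum with the digits `ee` -/
noncomputable def SE (x : ι → ℂ) {n : ℕ} (f : Fin n → Bool × Bool × Bool) : ι → ℂ :=
  fun j => ∑ i, ((ee (f i) : ℤ) : ℂ) * x j ^ (i : ℕ)

lemma SE_cons (x : ι → ℂ) {n : ℕ} (a : Bool × Bool × Bool) (g : Fin n → Bool × Bool × Bool) :
    SE x (Fin.cons a g : Fin (n + 1) → Bool × Bool × Bool) =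
      (fun j => x j * SE x g j) + fun _ => ((ee a : ℤ) : ℂ) := by
  funext j
  simp only [SE, Pi.add_apply]
  rw [Fin.sum_univ_succ]
  simp only [Fin.cons_zero, Fin.val_zero, pow_zero, mul_one, Fin.cons_succ, Fin.val_succ]
  rw [add_comm, Finset.mul_sum]
  congr 1
  refine Finset.sum_congr rfl fun i _ => ?_
  ring

lemma stepE (x : ι → ℂ) (hinj : Function.Injective x) (hx : ∀ i, 1 < ‖x i‖) {n : ℕ}
    (g : Fin n → Bool × Bool × Bool) :
    ∑ a : Bool × Bool × Bool,
      Real.exp (-(NN x (SE x (Fin.cons a g : Fin (n + 1) → Bool × Bool × Bool)) / M2 x)) ≤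
      (6 + 2 * al x) * Real.exp (-(NN x (SE x g) / M2 x)) := by
  have hM := M2_pos x hx
  have h1 := stepY x hinj hx (SE x g)
  set z : ι → ℂ := fun j => x j * SE x g j with hz
  have hN := NN_step x hinj hx (SE x g)
  rw [← hz] at hN
  simp_rw [SE_cons]
  rw [← hz, Fintype.sum_prod_type, Fintype.sum_bool]
  have e1 : ∀ a : Bool × Bool, ((ee (true, a) : ℤ) : ℂ) = ((dd a : ℝ) : ℂ) := by
    rintro ⟨a, b⟩
    cases a <;> cases b <;> simp [ee, dd]
  have e2 : ∀ a : Bool × Bool, ((ee (false, a) : ℤ) : ℂ) = 0 := by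
    intro a
    simp [ee]
  simp_rw [e1, e2]
  have e3 : (z + fun _ => (0 : ℂ)) = z := by
    funext j
    simp
  rw [e3, Finset.sum_const]
  have e4 : (Finset.univ : Finset (Bool × Bool)).card = 4 := by decide
  rw [e4]
  have h2 : Real.exp (-(NN x z / M2 x)) ≤ Real.exp (-(NN x (SE x g) / M2 x)) := by
    apply Real.exp_le_exp.2
    apply neg_le_neg
    rw [hN]
    have : 0 ≤ ‖be x z‖ ^ 2 / M2 x := by positivity
    gcongr
    linarith
  have h3 : (4 : ℕ) • Real.exp (-(NN x z / M2 x)) = 4 * Real.exp (-(NN x z / M2 x)) := by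
    rw [nsmul_eq_mul]; norm_num
  rw [h3]
  nlinarith [h1, h2]

lemma totalE (x : ι → ℂ) (hinj : Function.Injective x) (hx : ∀ i, 1 < ‖x i‖) :
    ∀ n : ℕ, ∑ f : Fin n → Bool × Bool × Bool, Real.exp (-(NN x (SE x f) / M2 x)) ≤
      (6 + 2 * al x) ^ n := by
  intro n
  induction n with
  | zero =>
    have : ∀ f : Fin 0 → Bool × Bool × Bool, NN x (SE x f) = 0 := by
      intro f
      have h0 : SE x f = 0 := by
        funext j
        simp [SE]
      rw [h0]
      simp [NN]
    simp [this]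
  | succ n ih =>
    rw [← (Fin.consEquiv fun _ : Fin (n + 1) => Bool × Bool × Bool).sum_comp,
      Fintype.sum_prod_type_right]
    have h1 : ∀ g : Fin n → Bool × Bool × Bool,
        ∑ a : Bool × Bool × Bool, Real.exp (-(NN x (SE x ((Fin.consEquiv fun _ : Fin (n + 1) =>
          Bool × Bool × Bool) (a, g))) / M2 x)) ≤
        (6 + 2 * al x) * Real.exp (-(NN x (SE x g) / M2 x)) := fun g => stepE x hinj hx g
    refine (Finset.sum_le_sum fun g _ => h1 g).trans ?_
    rw [← Finset.mul_sum, pow_succ, mul_comm]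
    have h2 : 0 ≤ 6 + 2 * al x := by
      have : 0 ≤ al x := (Real.exp_pos _).le
      positivity
    exact mul_le_mul_of_nonneg_right ih h2

theorem t_col : S_COL := by
  classical
  intro n x hinj hx R
  refine le_trans ?_ (totalE x hinj hx R)
  rw [Nat.card_eq_fintype_card, Fintype.card_subtype, Finset.card_filter]
  push_cast
  refine Finset.sum_le_sum fun f _ => ?_
  split_ifs with hf
  · have h0 : SE x f = 0 := by
      funext j
      exact hf j
    rw [h0]
    simp [NN]
  · exact (Real.exp_pos _).le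

end Pool.Agent.N216.L3
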